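import Pool.Agent.W_4481e3_q87.GoR
import Pool.Agent.W_4481e3_tab.T7

/-!
Tree s12o7, data 8.
-/

namespace Pool.Agent.W_4481e3_rt.s12o7

open Pool.Agent.W_4481e3_q25.EvR

theorem k165 : ckO Pool.Agent.W_4481e3_tab.T7.tab 353920 637120 33554432 2097152 2965504 4194304 9 1572864 524288 2621440 524288 493837352 508181872 14344520 28689040 268435456 268435456 16777216 16777216 4236248 4236248 0x100000c00000c00000c00000c00000c02000c12100013c00026c02000c02000c2100013c00026c202000c03000c104000c2121212 = true := by decide +kernel

end Pool.Agent.W_4481e3_rt.s12o7
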